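import Pool.Agent.Q276.KZ.Stm

set_option autoImplicit false

namespace Pool.Agent.Q195.KZ

open MeasureTheory Filter Finset
open Pool.Agent.Q276.KZ Pool.Agent.Q276.CD

lemma finset_SS {N : ℕ} {ι : Type*} (s : Finset ι) (f : ι → ℕ → ℝ) (h : ∀ i ∈ s, Sb N (f i)) :
    SS N (fun n => ∑ i ∈ s, f i n) = ∑ i ∈ s, SS N (f i) := by
  unfold SS
  rw [← Summable.tsum_finsetSum h]
  congr 1
  funext n
  unfold sf
  by_cases hn : n ∈ Nat.smoothNumbers N
  · simp only [Set.indicator_of_mem hn]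
    rw [Finset.sum_div]
  · simp only [Set.indicator_of_notMem hn]
    simp

lemma sum_abs_le (f : ℕ → ℝ) (Y P : ℕ) (M : ℝ) (hM : 0 ≤ M) (h1 : ∀ n, f n ≠ 0 → n ≤ P)
    (h2 : ∀ n, |f n| ≤ M) : ∑ n ∈ Icc 1 Y, |f n| ≤ P * M := by
  have e1 : ∑ n ∈ Icc 1 Y, |f n| ≤ ∑ n ∈ Icc 1 Y, (if n ≤ P then M else 0) := by
    apply sum_le_sum
    intro n _
    split_ifs with h
    · exact h2 n
    · have : f n = 0 := by
        by_contra hc
        exact h (h1 n hc)
      rw [this, abs_zero]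
  refine e1.trans ?_
  rw [← sum_filter, sum_const, nsmul_eq_mul]
  apply mul_le_mul_of_nonneg_right _ hM
  have : ((Icc 1 Y).filter (fun n => n ≤ P)) ⊆ Icc 1 P := by
    intro n hn
    rw [mem_filter, mem_Icc] at hn
    rw [mem_Icc]
    exact ⟨hn.1.1, hn.2⟩
  have h3 := card_le_card this
  rw [Nat.card_Icc, Nat.add_sub_cancel] at h3
  exact_mod_cast h3

lemma tw_one {N : ℕ} {T : ℝ} (hT : 1 ≤ Real.log T) (g : ℕ → ℝ)
    (hS : Sb N (fun n => g n ^ 2 * (n:ℝ) ^ (1 / Real.log T))) :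
    Sb N (fun n => g n ^ 2 * (1 + Real.log n)) ∧
    Real.log T * SS N (fun n => g n ^ 2) +
      SS N (fun n => ((∅ : Set ℕ)ᶜ).indicator (fun n => g n ^ 2 * Real.log n) n) ≤
      Real.log T * SS N (fun n => g n ^ 2 * (n:ℝ) ^ (1 / Real.log T)) := by
  have hL : 0 < Real.log T := by linarith
  have hlog0 : ∀ n : ℕ, 0 ≤ Real.log (n:ℝ) := fun n => Real.log_natCast_nonneg n
  have key : ∀ n ∈ Nat.smoothNumbers N, 1 + Real.log n / Real.log T ≤ (n:ℝ) ^ (1 / Real.log T) := by
    intro n hn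
    have hn0 : n ≠ 0 := (sm_iff.mp hn).1
    have hn1 : (0:ℝ) < n := by exact_mod_cast Nat.pos_of_ne_zero hn0
    rw [Real.rpow_def_of_pos hn1]
    have := Real.add_one_le_exp (Real.log n * (1 / Real.log T))
    have e : Real.log n * (1 / Real.log T) = Real.log n / Real.log T := by ring
    rw [e] at this ⊢
    linarith
  have h1 : Sb N (fun n => g n ^ 2 * (1 + Real.log n)) := by
    apply Sb_of_le (hS.const_mul (Real.log T))
    intro n hn
    have h2 := key n hn
    rw [abs_of_nonneg (mul_nonneg (sq_nonneg _) (by linarith [hlog0 n]))]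
    have h3 : 1 + Real.log n ≤ Real.log T * (n:ℝ) ^ (1 / Real.log T) := by
      have h4 := mul_le_mul_of_nonneg_left h2 hL.le
      have h5 : Real.log T * (1 + Real.log n / Real.log T) = Real.log T + Real.log n := by
        field_simp
      linarith
    calc g n ^ 2 * (1 + Real.log n) ≤ g n ^ 2 * (Real.log T * (n:ℝ) ^ (1 / Real.log T)) :=
          mul_le_mul_of_nonneg_left h3 (sq_nonneg _)
      _ = _ := by ring
  have ha : Sb N (fun n => g n ^ 2) := by
    apply Sb_of_le h1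
    intro n hn
    rw [abs_of_nonneg (sq_nonneg _)]
    nlinarith [sq_nonneg (g n), hlog0 n, mul_nonneg (sq_nonneg (g n)) (hlog0 n)]
  have hb : Sb N (fun n => g n ^ 2 * Real.log n) := by
    apply Sb_of_le h1
    intro n hn
    rw [abs_of_nonneg (mul_nonneg (sq_nonneg _) (hlog0 n))]
    nlinarith [sq_nonneg (g n)]
  refine ⟨h1, ?_⟩
  have e1 : (fun n => ((∅ : Set ℕ)ᶜ).indicator (fun n => g n ^ 2 * Real.log n) n) =
      fun n => g n ^ 2 * Real.log n := by
    funext n
    rw [Set.indicator_of_mem (by simp)]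
  rw [e1, ← SS_const_mul, ← SS_add (ha.const_mul _) hb, ← SS_const_mul]
  apply SS_le ((ha.const_mul _).add hb) (hS.const_mul _)
  intro n hn
  have h4 := mul_le_mul_of_nonneg_left (key n hn) (mul_nonneg hL.le (sq_nonneg (g n)))
  have h5 : Real.log T * g n ^ 2 * (1 + Real.log n / Real.log T) =
      Real.log T * g n ^ 2 + g n ^ 2 * Real.log n := by
    field_simp
  linarith

theorem t_UX (hTW : P_TW) (hUG : P_UG) (hRN : P_RN) (hPRM : P_PRM) (hFA : P_FA) : P_UX := by
  obtain ⟨η, hη, C1, hC1, hTW'⟩ := hTW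
  obtain ⟨e1, he1, hUG'⟩ := hUG
  refine ⟨min e1 (min (η / 5) (1 / 100)), by positivity, fun e he hee C3 hC3 => ?_⟩
  have hee1 : e ≤ e1 := hee.trans (min_le_left _ _)
  have hee2 : e ≤ η / 5 := hee.trans ((min_le_right _ _).trans (min_le_left _ _))
  have hee3 : e ≤ 1 / 100 := hee.trans ((min_le_right _ _).trans (min_le_right _ _))
  obtain ⟨C2, hC2, hUG2⟩ := hUG' e he hee1 C3 hC3
  obtain ⟨C4, hC4, hRN2⟩ := hRN e he hee3 C3 hC3
  refine ⟨C1 * C4 * C2 + 10, by positivity, ?_⟩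
  filter_upwards [hTW', hUG2, hRN2, eventually_ge_atTop (Real.exp 1)] with T h1 h2 h3 hT k J K b hS
  have hTpos : 0 < T := lt_of_lt_of_le (Real.exp_pos 1) hT
  have hT1 : 1 ≤ T := le_trans (by have := Real.add_one_le_exp (1:ℝ); linarith) hT
  have hL1 : 1 ≤ Real.log T := by rw [Real.le_log_iff_exp_le hTpos]; exact hT
  obtain ⟨⟨g1, g2⟩, ⟨g3, g4⟩⟩ := h2 k J K b hS
  obtain ⟨_, _, _, r4, r5⟩ := h3 k J K b hS
  have hK : ∀ j ≤ J, 1 ≤ K j := by
    intro j hj
    have h4 := hS.big j hj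
    have h5 : (100:ℝ) ≤ 1 / e := by
      rw [le_div_iff₀ he]; linarith
    have h6 : (1:ℝ) ≤ K j := by linarith
    exact_mod_cast h6
  have hb10 : ∀ j ≤ J, 10 ≤ b (j + 1) := by
    intro j
    induction j with
    | zero => intro _; exact hS.b10
    | succ j ih =>
      intro hj
      exact (ih (by omega)).trans (hS.mono (j + 1) hj)
  set P : ℕ := ∏ j ∈ range (J + 1), b (j + 1) ^ K j with hP
  have hmono : ∀ j ≤ J, b j ≤ b (j + 1) := hS.mono
  have hb01 : 1 ≤ b 0 := le_trans (by norm_num) hS.b0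
  have hPle : 4 ^ b 0 * P ≤ 4 ^ b 0 * ∏ j ∈ range (J + 1), b (j + 1) ^ (2 * K j) := by
    apply Nat.mul_le_mul_left
    apply prod_le_prod' 
    intro j hj
    have := hb10 j (by have := mem_range.mp hj; omega)
    exact Nat.pow_le_pow_right (by omega) (by omega)
  have hPT : ((4 ^ b 0 * P : ℕ) : ℝ) ≤ T ^ e := le_trans (by exact_mod_cast hPle) hS.len
  have hTe0 : 0 < T ^ e := Real.rpow_pos_of_pos hTpos e
  have hTe : T ^ e ≤ T ^ ((1:ℝ) / 20) := Real.rpow_le_rpow_of_exponent_le hT1 (by linarith)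
  have hPY : 4 ^ b 0 * P ≤ y2 T := by
    unfold y2
    apply Nat.le_floor
    exact hPT.trans hTe
  have hPT' : (P : ℝ) ≤ T ^ e := by
    refine le_trans ?_ hPT
    push_cast
    have h4 : (1:ℝ) ≤ 4 ^ b 0 := one_le_pow₀ (by norm_num)
    nlinarith [(Nat.cast_nonneg P : (0:ℝ) ≤ (P:ℝ))]
  have hY : ((y2 T : ℕ) : ℝ) ≤ T ^ ((1:ℝ) / 20) := by
    unfold y2
    exact Nat.floor_le (by positivity)
  have h10 : (10:ℝ) ^ (∑ j ∈ range (J + 1), K j) ≤ T ^ e := by
    refine le_trans ?_ hPT'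
    rw [← prod_pow_eq_pow_sum, hP]
    push_cast
    apply prod_le_prod (fun j _ => by positivity)
    intro j hj
    have := hb10 j (by have := mem_range.mp hj; omega)
    have h' : (10:ℝ) ≤ b (j + 1) := by exact_mod_cast this
    exact pow_le_pow_left₀ (by norm_num) h' _
  have h2J : (2:ℝ) ^ (J + 1) ≤ T ^ e := by
    refine le_trans ?_ h10
    have hsum : J + 1 ≤ ∑ j ∈ range (J + 1), K j := by
      calc J + 1 = ∑ j ∈ range (J + 1), 1 := by simp
        _ ≤ _ := sum_le_sum (fun j hj => hK j (by have := mem_range.mp hj; omega))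
    calc (2:ℝ) ^ (J + 1) ≤ 10 ^ (J + 1) := pow_le_pow_left₀ (by norm_num) (by norm_num) _
      _ ≤ _ := pow_le_pow_right₀ (by norm_num) hsum
  -- one polynomial
  have one : ∀ (f : ArithmeticFunction ℝ) (M : ℝ), 0 ≤ M → M ≤ T ^ e →
      (∀ n, f n ≠ 0 → n ≤ 4 ^ b 0 * P ∧ n ∈ Nat.smoothNumbers (b (J + 1))) →
      (∀ n, |f n| ≤ M) →
      Sb (b (J + 1)) (fun n => (f * zt) n ^ 2 * (n:ℝ) ^ (1 / Real.log T)) →
      ∫ t in (T / 4)..(8 * T), ‖riemannZeta (cl t)‖ ^ 2 * ‖Dr f (y2 T) (cl t)‖ ^ 2 ≤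
        C1 * T * Real.exp (-R1 (b (J + 1))) * (Real.log T *
          SS (b (J + 1)) (fun n => (f * zt) n ^ 2 * (n:ℝ) ^ (1 / Real.log T))) +
        T ^ (1 - η) * (T ^ e * T ^ e) ^ 2 := by
    intro f M hM hMT hf1 hf2 hf3
    obtain ⟨q1, q2⟩ := tw_one (N := b (J + 1)) hL1 (fun n => (f * zt) n) hf3
    have h4 := h1 f (b (J + 1)) (y2 T) ∅ r5 hY
      (fun n hn => ⟨(hf1 n hn).1.trans hPY, (hf1 n hn).2⟩) (fun d n _ hn => by simp at hn)
      (fun n hn => by simp at hn) q1
    refine h4.trans (add_le_add ?_ ?_)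
    · apply mul_le_mul_of_nonneg_left q2
      positivity
    · apply mul_le_mul_of_nonneg_left _ (by positivity)
      apply pow_le_pow_left₀ (sum_nonneg (fun _ _ => abs_nonneg _))
      refine (sum_abs_le (fun n => f n) (y2 T) (4 ^ b 0 * P) M hM (fun n hn => (hf1 n hn).1) hf2).trans ?_
      exact mul_le_mul hPT hMT hM hTe0.le
  have herr : T ^ (1 - η) * (T ^ e * T ^ e) ^ 2 * T ^ e ≤ T := by
    have e1 : T ^ (1 - η) * (T ^ e * T ^ e) ^ 2 * T ^ e = T ^ (1 - η + 5 * e) := by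
      have e2 : (T ^ e * T ^ e) ^ 2 * T ^ e = T ^ (5 * e) := by
        rw [show (5:ℝ) * e = e + e + e + e + e by ring, Real.rpow_add hTpos, Real.rpow_add hTpos,
          Real.rpow_add hTpos, Real.rpow_add hTpos]
        ring
      rw [mul_assoc, e2, ← Real.rpow_add hTpos]
    rw [e1]
    calc T ^ (1 - η + 5 * e) ≤ T ^ (1:ℝ) := Real.rpow_le_rpow_of_exponent_le hT1 (by linarith)
      _ = T := Real.rpow_one T
  have hk0 := hS.k0
  have hk1 := hS.k1
  have hW1 : 1 ≤ WW k J b := by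
    unfold WW
    apply Real.one_le_exp
    have := R1_nonneg (b (J + 1))
    positivity
  have hKJ : (1:ℝ) ≤ (K J : ℝ) ^ 2 := by
    have : (1:ℝ) ≤ K J := by exact_mod_cast hK J le_rfl
    exact one_le_pow₀ this
  have hlog2 : 1 / 2 ≤ Real.log (2 / k) := by
    have h4 : Real.log 2 ≤ Real.log (2 / k) := by
      apply Real.log_le_log (by norm_num)
      rw [le_div_iff₀ hk0]; linarith
    have := Real.log_two_gt_d9
    linarith
  have hkk : |k - 1| ≤ 1 := by rw [abs_le]; constructor <;> linarith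
  have hmain : ∀ X : ℝ, 0 ≤ X → C1 * T * Real.exp (-R1 (b (J + 1))) * (Real.log T * X) ≤
      C1 * C4 * X * ((K J : ℝ) ^ 2 * T) := by
    intro X hX
    calc C1 * T * Real.exp (-R1 (b (J + 1))) * (Real.log T * X)
        = (C1 * T * X) * (Real.log T * Real.exp (-R1 (b (J + 1)))) := by ring
      _ ≤ (C1 * T * X) * (C4 * (K J : ℝ) ^ 2) := mul_le_mul_of_nonneg_left r4 (by positivity)
      _ = _ := by ring
  constructor
  · have hsb : ∀ c ∈ (range (J + 1)).powerset, Sb (b (J + 1)) (fun n =>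
        (fQ b J (QX (k - 1) K c) * zt) n ^ 2 * (n:ℝ) ^ (1 / Real.log T)) := by
      intro c hc
      apply Sb_of_le g1
      intro n _
      have hn : 0 ≤ (n:ℝ) ^ (1 / Real.log T) := by positivity
      rw [abs_of_nonneg (by positivity)]
      apply mul_le_mul_of_nonneg_right _ hn
      exact single_le_sum (f := fun c => (fQ b J (QX (k - 1) K c) * zt) n ^ 2)
        (fun _ _ => sq_nonneg _) hc
    have hc1 : ∀ c ∈ (range (J + 1)).powerset, (∫ t in (T / 4)..(8 * T), ‖riemannZeta (cl t)‖ ^ 2 *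
      ‖Dr (fQ b J (QX (k - 1) K c)) (y2 T) (cl t)‖ ^ 2) ≤
        C1 * T * Real.exp (-R1 (b (J + 1))) * (Real.log T *
          SS (b (J + 1)) (fun n => (fQ b J (QX (k - 1) K c) * zt) n ^ 2 * (n:ℝ) ^ (1 / Real.log T))) +
        T ^ (1 - η) * (T ^ e * T ^ e) ^ 2 := by
      intro c hc
      apply one (fQ b J (QX (k - 1) K c)) (10 ^ (∑ j ∈ range (J + 1), K j)) (by positivity) h10 _ _
        (hsb c hc)
      · intro n hn
        have hq := (hPRM b J (QX (k - 1) K c) K (y2 T) hb01 hmono (by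
          intro j hj m hm
          unfold QX QH QE
          split_ifs <;> first | omega | rfl) hPY).2.1 n hn
        refine ⟨hq.1.trans ?_, hq.2⟩
        exact Nat.le_mul_of_pos_left _ (by positivity)
      · intro n
        exact (hFA b J K (k - 1) hkk n).1 c
    refine (sum_le_sum hc1).trans ?_
    rw [sum_add_distrib, ← mul_sum, ← mul_sum, sum_const, card_powerset, card_range, nsmul_eq_mul,
      ← finset_SS _ _ hsb]
    have e3 : (fun n : ℕ => ∑ c ∈ (range (J + 1)).powerset,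
        (fQ b J (QX (k - 1) K c) * zt) n ^ 2 * (n:ℝ) ^ (1 / Real.log T)) =
        fun n : ℕ => (∑ c ∈ (range (J + 1)).powerset, (fQ b J (QX (k - 1) K c) * zt) n ^ 2) *
          (n:ℝ) ^ (1 / Real.log T) := by
      funext n
      rw [sum_mul]
    rw [e3]
    set X := SS (b (J + 1)) (fun n : ℕ => (∑ c ∈ (range (J + 1)).powerset,
      (fQ b J (QX (k - 1) K c) * zt) n ^ 2) * (n:ℝ) ^ (1 / Real.log T)) with hX
    have hX0 : 0 ≤ X := SS_nonneg (fun n _ => by positivity)
    have h5 := hmain X hX0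
    have h6 : C1 * C4 * X * ((K J : ℝ) ^ 2 * T) ≤
        C1 * C4 * (C2 * Real.log (2 / k) * WW k J b) * ((K J : ℝ) ^ 2 * T) := by
      apply mul_le_mul_of_nonneg_right _ (by positivity)
      exact mul_le_mul_of_nonneg_left g2 (by positivity)
    have h7 : ((2 ^ (J + 1) : ℕ) : ℝ) * (T ^ (1 - η) * (T ^ e * T ^ e) ^ 2) ≤ T := by
      refine le_trans ?_ herr
      push_cast
      rw [mul_comm]
      exact mul_le_mul_of_nonneg_left h2J (by positivity)
    have h8 : T ≤ 10 * (K J : ℝ) ^ 2 * Real.log (2 / k) * (T * WW k J b) := by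
      have q1 : 1 ≤ 2 * Real.log (2 / k) := by linarith
      have q2 : T * 1 ≤ T * WW k J b := mul_le_mul_of_nonneg_left hW1 hTpos.le
      calc T = 1 * 1 * (T * 1) := by ring
        _ ≤ (K J : ℝ) ^ 2 * (2 * Real.log (2 / k)) * (T * WW k J b) := by
            apply mul_le_mul _ q2 (by positivity) (by positivity)
            exact mul_le_mul hKJ q1 (by norm_num) (by positivity)
        _ ≤ _ := by
            have : 0 ≤ (K J : ℝ) ^ 2 * Real.log (2 / k) * (T * WW k J b) := by positivity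
            nlinarith
    nlinarith [h5, h6, h7, h8]
  · have h9 := one (mu0 (b 0) * fQ b J (QE (k - 1) K)) 1 (by norm_num)
      (Real.one_le_rpow hT1 he.le) (by
        intro n hn
        exact (hPRM b J (QE (k - 1) K) K (y2 T) hb01 hmono (by
          intro j hj m hm
          unfold QE
          rw [if_neg (by omega)]) hPY).1 n hn) (fun n => (hFA b J K (k - 1) hkk n).2.2.2) g3
    refine h9.trans ?_
    set X := SS (b (J + 1)) (fun n : ℕ => (mu0 (b 0) * fQ b J (QE (k - 1) K) * zt) n ^ 2 *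
      (n:ℝ) ^ (1 / Real.log T)) with hX
    have hX0 : 0 ≤ X := SS_nonneg (fun n _ => by positivity)
    have h5 := hmain X hX0
    have h6 : C1 * C4 * X * ((K J : ℝ) ^ 2 * T) ≤
        C1 * C4 * (C2 * WW k J b) * ((K J : ℝ) ^ 2 * T) := by
      apply mul_le_mul_of_nonneg_right _ (by positivity)
      exact mul_le_mul_of_nonneg_left g4 (by positivity)
    have h7 : T ^ (1 - η) * (T ^ e * T ^ e) ^ 2 ≤ T := by
      refine le_trans ?_ herr
      have : 1 ≤ T ^ e := Real.one_le_rpow hT1 he.le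
      exact le_mul_of_one_le_right (by positivity) this
    have h8 : T ≤ 10 * (K J : ℝ) ^ 2 * (T * WW k J b) := by
      have q2 : T * 1 ≤ T * WW k J b := mul_le_mul_of_nonneg_left hW1 hTpos.le
      calc T = 1 * (T * 1) := by ring
        _ ≤ (K J : ℝ) ^ 2 * (T * WW k J b) := mul_le_mul hKJ q2 (by positivity) (by positivity)
        _ ≤ _ := by
            have : 0 ≤ (K J : ℝ) ^ 2 * (T * WW k J b) := by positivity
            nlinarith
    nlinarith [h5, h6, h7, h8]

end Pool.Agent.Q195.KZ
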