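import Pool.Agent.Q276.KZ.Stm
import Pool.Agent.Q195.KZ.UX

set_option autoImplicit false

namespace Pool.Agent.Q195.KZ.LA

open MeasureTheory Filter Finset
open Pool.Agent.Q276.KZ Pool.Agent.Q276.CD

/-- local values of the square of the coefficient, with the damping `n^{-D}` -/
noncomputable def ph (B : ℕ) (k D : ℝ) (p a : ℕ) : ℝ :=
  if p < B then (if a = 0 then 1 else 0) else ek k p a ^ 2 * ((p:ℝ) ^ a) ^ (-D)

/-- local values with the Rankin factor in the block `[u, v)` -/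
noncomputable def ps (B u v : ℕ) (k : ℝ) (p a : ℕ) : ℝ :=
  if p < B then (if a = 0 then 1 else 0) else ek k p a ^ 2 * (if u ≤ p ∧ p < v then rr ^ a else 1)

lemma ph_zero (B : ℕ) (k D : ℝ) (p : ℕ) : ph B k D p 0 = 1 := by
  unfold ph; split_ifs <;> simp_all [ek]

lemma ps_zero (B u v : ℕ) (k : ℝ) (p : ℕ) : ps B u v k p 0 = 1 := by
  unfold ps; split_ifs <;> simp_all [ek]

lemma ph_nonneg (B : ℕ) (k D : ℝ) (p a : ℕ) : 0 ≤ ph B k D p a := by
  unfold ph; split_ifs <;> positivity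

lemma ps_nonneg (B u v : ℕ) (k : ℝ) (p a : ℕ) : 0 ≤ ps B u v k p a := by
  have := rr_pos
  unfold ps; split_ifs <;> positivity

lemma ind_sum (p : ℕ) : (Summable fun a : ℕ => (if a = 0 then (1:ℝ) else 0) / (p:ℝ) ^ a) ∧
    ∑' a : ℕ, (if a = 0 then (1:ℝ) else 0) / (p:ℝ) ^ a = 1 := by
  have h : ∀ a ∉ ({0} : Finset ℕ), (if a = 0 then (1:ℝ) else 0) / (p:ℝ) ^ a = 0 := by
    intro a ha
    rw [mem_singleton] at ha
    rw [if_neg ha, zero_div]
  refine ⟨summable_of_ne_finset_zero h, ?_⟩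
  rw [tsum_eq_sum h]
  simp

lemma ek_sqrt (k : ℝ) (p a : ℕ) : ek k p a ^ 2 * rr ^ a = ek (k * √rr) p a ^ 2 := by
  unfold ek
  have h1 : (√rr) ^ 2 = rr := Real.sq_sqrt rr_pos.le
  rw [mul_pow, div_pow, div_pow, mul_pow, ← pow_mul (√rr) a 2, mul_comm a 2, pow_mul, h1]
  ring

lemma ps_loc (B u v : ℕ) (k : ℝ) {p : ℕ} (hp : 2 ≤ p) :
    (Summable fun a : ℕ => ps B u v k p a / (p:ℝ) ^ a) ∧
    ∑' a : ℕ, ps B u v k p a / (p:ℝ) ^ a ≤
      Real.exp (k ^ 2 * (1 / p) + (if u ≤ p ∧ p < v then (rr - 1) * k ^ 2 * (1 / p) else 0)) := by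
  have hp0 : (0:ℝ) < p := by exact_mod_cast (by omega : 0 < p)
  have hr : 0 ≤ rr - 1 := by linarith [one_le_rr]
  by_cases h : p < B
  · simp only [ps, if_pos h]
    refine ⟨(ind_sum p).1, ?_⟩
    rw [(ind_sum p).2]
    apply Real.one_le_exp
    split_ifs <;> positivity
  · by_cases h2 : u ≤ p ∧ p < v
    · simp only [ps, if_neg h, if_pos h2, ek_sqrt]
      have := loc_exp (k * √rr) hp
      refine ⟨this.1, this.2.trans (le_of_eq ?_)⟩
      congr 1
      rw [mul_pow, Real.sq_sqrt rr_pos.le]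
      ring
    · simp only [ps, if_neg h, if_neg h2, mul_one, add_zero]
      exact loc_exp k hp

lemma exp_le_one_add {x : ℝ} (hx : 0 ≤ x) : Real.exp (x - x ^ 2) ≤ 1 + x := by
  have h1 : 0 < 1 + x := by linarith
  rw [← Real.le_log_iff_exp_le h1]
  have h2 := Real.one_sub_inv_le_log_of_pos h1
  have h3 : x - x ^ 2 ≤ 1 - (1 + x)⁻¹ := by
    rw [show 1 - (1 + x)⁻¹ = x / (1 + x) by field_simp; ring, le_div_iff₀ h1]
    nlinarith [mul_nonneg hx (mul_nonneg hx hx)]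
  linarith

lemma ph_loc (B : ℕ) {k D : ℝ} (hD : 0 ≤ D) (hk0 : 0 ≤ k) (hk1 : k ≤ 1) {p : ℕ} (hp : 2 ≤ p) :
    (Summable fun a : ℕ => ph B k D p a / (p:ℝ) ^ a) ∧
    Real.exp (if p < B then 0 else k ^ 2 * (1 / p) - D * k ^ 2 * (Real.log p / p) - k ^ 4 * (1 / (p:ℝ) ^ 2)) ≤
      ∑' a : ℕ, ph B k D p a / (p:ℝ) ^ a := by
  have hp0 : (0:ℝ) < p := by exact_mod_cast (by omega : 0 < p)
  have hp1 : (1:ℝ) ≤ p := by exact_mod_cast (by omega : 1 ≤ p)
  by_cases h : p < B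
  · simp only [ph, if_pos h]
    refine ⟨(ind_sum p).1, ?_⟩
    rw [(ind_sum p).2, Real.exp_zero]
  · have hs : Summable fun a : ℕ => ph B k D p a / (p:ℝ) ^ a := by
      apply Summable.of_nonneg_of_le (fun a => div_nonneg (ph_nonneg B k D p a) (by positivity)) _
        (loc_exp k hp).1
      intro a
      simp only [ph, if_neg h]
      apply div_le_div_of_nonneg_right _ (by positivity)
      apply mul_le_of_le_one_right (sq_nonneg _)
      apply Real.rpow_le_one_of_one_le_of_nonpos (one_le_pow₀ hp1) (by linarith)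
    refine ⟨hs, ?_⟩
    have h1 : ∑ a ∈ range 2, ph B k D p a / (p:ℝ) ^ a ≤ ∑' a : ℕ, ph B k D p a / (p:ℝ) ^ a :=
      hs.sum_le_tsum _ (fun a _ => div_nonneg (ph_nonneg B k D p a) (by positivity))
    refine le_trans ?_ h1
    rw [sum_range_succ, sum_range_one, ph_zero, pow_zero, div_one, pow_one]
    simp only [ph, if_neg h]
    have e1 : ek k p 1 ^ 2 = k ^ 2 := by simp [ek]
    rw [e1, pow_one]
    set x := k ^ 2 * (p:ℝ) ^ (-D) / p with hx
    have hpD0 : 0 < (p:ℝ) ^ (-D) := Real.rpow_pos_of_pos hp0 _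
    have hpD1 : (p:ℝ) ^ (-D) ≤ 1 := Real.rpow_le_one_of_one_le_of_nonpos hp1 (by linarith)
    have hx0 : 0 ≤ x := by positivity
    refine le_trans ?_ (exp_le_one_add hx0)
    apply Real.exp_le_exp.mpr
    have h2 : x ^ 2 ≤ k ^ 4 * (1 / (p:ℝ) ^ 2) := by
      have h3 : x ≤ k ^ 2 / p := by
        rw [hx]
        apply div_le_div_of_nonneg_right _ hp0.le
        exact mul_le_of_le_one_right (sq_nonneg k) hpD1
      calc x ^ 2 ≤ (k ^ 2 / p) ^ 2 := pow_le_pow_left₀ hx0 h3 2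
        _ = _ := by rw [div_pow]; ring
    have h4 : 1 - D * Real.log p ≤ (p:ℝ) ^ (-D) := by
      rw [Real.rpow_def_of_pos hp0]
      have := Real.add_one_le_exp (Real.log p * -D)
      linarith
    have h5 : k ^ 2 * (1 / p) - D * k ^ 2 * (Real.log p / p) ≤ x := by
      rw [hx, show k ^ 2 * (1 / (p:ℝ)) - D * k ^ 2 * (Real.log p / p) =
        k ^ 2 * (1 - D * Real.log p) / p by ring]
      apply div_le_div_of_nonneg_right _ hp0.le
      exact mul_le_mul_of_nonneg_left h4 (sq_nonneg k)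
    linarith

lemma sum_inv_sq (N : ℕ) : ∑ p ∈ Nat.primesBelow N, 1 / (p:ℝ) ^ 2 ≤ 1 := by
  have h1 : ∀ M : ℕ, ∑ n ∈ Icc 2 (M + 1), 1 / (n:ℝ) ^ 2 ≤ 1 - 1 / ((M:ℝ) + 1) := by
    intro M
    induction M with
    | zero => simp
    | succ M ih =>
      rw [sum_Icc_succ_top (by omega)]
      push_cast
      have h2 : 1 / ((M:ℝ) + 1 + 1) ^ 2 ≤ 1 / ((M:ℝ) + 1) - 1 / ((M:ℝ) + 1 + 1) := by
        rw [div_sub_div _ _ (by positivity) (by positivity), div_le_div_iff₀ (by positivity) (by positivity)]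
        nlinarith [(Nat.cast_nonneg M : (0:ℝ) ≤ (M:ℝ))]
      linarith
  have h3 : ∑ p ∈ Nat.primesBelow N, 1 / (p:ℝ) ^ 2 ≤ ∑ n ∈ Icc 2 (N + 1), 1 / (n:ℝ) ^ 2 := by
    apply sum_le_sum_of_subset_of_nonneg
    · intro p hp
      rw [Nat.mem_primesBelow] at hp
      rw [mem_Icc]
      exact ⟨hp.2.two_le, by omega⟩
    · intro _ _ _; positivity
  have h4 := h1 N
  have h5 : 0 ≤ 1 / ((N:ℝ) + 1) := by positivity
  linarith

lemma ps_bound (B u v N : ℕ) (k : ℝ) (huv : u ≤ v) (hvN : v ≤ N) :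
    Sb N (mf (ps B u v k)) ∧
    SS N (mf (ps B u v k)) ≤ Real.exp (k ^ 2 * R1 N + (rr - 1) * k ^ 2 * (R1 v - R1 u)) := by
  have h1 := ep_bound (N := N)
    (c := fun p => k ^ 2 * (1 / p) + (if u ≤ p ∧ p < v then (rr - 1) * k ^ 2 * (1 / p) else 0))
    (ps_zero B u v k) (ps_nonneg B u v k) (fun p hp => (ps_loc B u v k hp.two_le).1)
    (fun p hp _ => (ps_loc B u v k hp.two_le).2)
  refine ⟨h1.1, h1.2.trans (le_of_eq ?_)⟩
  congr 1
  rw [sum_add_distrib, ← mul_sum]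
  congr 1
  rw [← sum_filter, ← mul_sum]
  congr 1
  have h2 : (Nat.primesBelow N).filter (fun p => u ≤ p ∧ p < v) = Nat.primesBelow v \ Nat.primesBelow u := by
    ext p
    rw [mem_filter, Finset.mem_sdiff, Nat.mem_primesBelow, Nat.mem_primesBelow, Nat.mem_primesBelow]
    constructor
    · rintro ⟨⟨_, h3⟩, h4, h5⟩
      exact ⟨⟨h5, h3⟩, fun h6 => by omega⟩
    · rintro ⟨⟨h3, h4⟩, h5⟩
      refine ⟨⟨by omega, h4⟩, ?_, h3⟩
      by_contra h6
      exact h5 ⟨by omega, h4⟩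
  rw [h2]
  unfold R1
  have h3 : Nat.primesBelow u ⊆ Nat.primesBelow v := by
    intro p hp
    rw [Nat.mem_primesBelow] at hp ⊢
    exact ⟨by omega, hp.2⟩
  have := sum_sdiff h3 (f := fun p : ℕ => 1 / (p:ℝ))
  linarith

lemma ph_bound (B N : ℕ) {k D : ℝ} (hBN : B ≤ N) (hD : 0 ≤ D) (hk0 : 0 ≤ k) (hk1 : k ≤ 1) :
    Sb N (mf (ph B k D)) ∧
    Real.exp (k ^ 2 * R1 N - k ^ 2 * R1 B - D * k ^ 2 * RL N - k ^ 4) ≤ SS N (mf (ph B k D)) := by
  have hs : ∀ p : ℕ, p.Prime → Summable fun j : ℕ => |ph B k D p j| / (p : ℝ) ^ j := by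
    intro p hp
    refine (ph_loc B hD hk0 hk1 hp.two_le).1.congr fun a => ?_
    rw [abs_of_nonneg (ph_nonneg B k D p a)]
  obtain ⟨h1, h2⟩ := ep_main (ph_zero B k D) hs N
  refine ⟨?_, ?_⟩
  · unfold Sb
    refine h1.congr fun n => ?_
    exact abs_of_nonneg (sf_nonneg (fun n _ => mf_nonneg (ph_nonneg B k D) n) n)
  · rw [h2]
    have h3 : ∏ p ∈ Nat.primesBelow N, Real.exp (if p < B then 0 else
        k ^ 2 * (1 / p) - D * k ^ 2 * (Real.log p / p) - k ^ 4 * (1 / (p:ℝ) ^ 2)) ≤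
        ∏ p ∈ Nat.primesBelow N, ∑' j : ℕ, ph B k D p j / (p : ℝ) ^ j := by
      apply prod_le_prod (fun _ _ => (Real.exp_pos _).le)
      intro p hp
      exact (ph_loc B hD hk0 hk1 (Nat.prime_of_mem_primesBelow hp).two_le).2
    refine le_trans ?_ h3
    rw [← Real.exp_sum]
    apply Real.exp_le_exp.mpr
    have h4 : ∑ p ∈ Nat.primesBelow N, ((k ^ 2 * (1 / (p:ℝ)) - D * k ^ 2 * (Real.log p / p) -
        k ^ 4 * (1 / (p:ℝ) ^ 2)) - (if p < B then k ^ 2 * (1 / (p:ℝ)) else 0)) ≤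
        ∑ p ∈ Nat.primesBelow N, (if p < B then 0 else
        k ^ 2 * (1 / (p:ℝ)) - D * k ^ 2 * (Real.log p / p) - k ^ 4 * (1 / (p:ℝ) ^ 2)) := by
      apply sum_le_sum
      intro p hp
      have hp1 := (Nat.prime_of_mem_primesBelow hp).one_le
      have h5 : 0 ≤ Real.log (p:ℝ) := Real.log_natCast_nonneg p
      split_ifs with h
      · have h6 : 0 ≤ D * k ^ 2 * (Real.log p / p) := by positivity
        have h7 : 0 ≤ k ^ 4 * (1 / (p:ℝ) ^ 2) := by positivity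
        linarith
      · linarith
    refine le_trans ?_ h4
    rw [sum_sub_distrib, sum_sub_distrib, sum_sub_distrib, ← mul_sum, ← mul_sum, ← mul_sum,
      ← sum_filter, ← mul_sum]
    have h6 : (Nat.primesBelow N).filter (fun p => p < B) = Nat.primesBelow B := by
      ext p
      rw [mem_filter, Nat.mem_primesBelow, Nat.mem_primesBelow]
      constructor
      · rintro ⟨⟨_, h3⟩, h4⟩; exact ⟨h4, h3⟩
      · rintro ⟨h3, h4⟩; exact ⟨⟨by omega, h4⟩, h3⟩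
    rw [h6]
    have h7 := sum_inv_sq N
    have h8 : 0 ≤ k ^ 4 := by positivity
    unfold R1 RL
    nlinarith [mul_le_mul_of_nonneg_left h7 h8]

lemma rpow_mf {n : ℕ} (hn : n ≠ 0) (D : ℝ) : (n:ℝ) ^ (-D) = mf (fun p a => ((p:ℝ) ^ a) ^ (-D)) n := by
  unfold mf
  rw [Real.finsetProd_rpow _ _ (fun p _ => by positivity)]
  congr 1
  have := Nat.prod_factorization_pow_eq_self hn
  conv_lhs => rw [← this]
  unfold Finsupp.prod
  push_cast
  rfl

lemma sum_Ob (b : ℕ → ℕ) (J : ℕ) (hb : ∀ j ≤ J, b j ≤ b (j + 1)) (n : ℕ) :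
    Ob 0 (b (J + 1)) n = Ob 0 (b 0) n + ∑ j ∈ range (J + 1), Ob (b j) (b (j + 1)) n := by
  induction J with
  | zero =>
    rw [sum_range_one]
    exact Ob_split (hb 0 le_rfl) n
  | succ J ih =>
    rw [sum_range_succ, ← add_assoc, ← ih (fun j hj => hb j (by omega))]
    exact Ob_split (hb (J + 1) le_rfl) n

lemma mono_b (b : ℕ → ℕ) (J : ℕ) (hb : ∀ j ≤ J, b j ≤ b (j + 1)) : ∀ j ≤ J + 1, b j ≤ b (J + 1) := by
  induction J with
  | zero =>
    intro j hj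
    rcases Nat.lt_or_ge j 1 with h | h
    · have : j = 0 := by omega
      subst this; exact hb 0 le_rfl
    · have : j = 1 := by omega
      subst this; exact le_rfl
  | succ J ih =>
    intro j hj
    rcases Nat.lt_or_ge j (J + 2) with h | h
    · exact (ih (fun j hj => hb j (by omega)) j (by omega)).trans (hb (J + 1) le_rfl)
    · have : j = J + 2 := by omega
      subst this; exact le_rfl

/-- the coefficients at the good numbers -/
lemma fQ_good (b : ℕ → ℕ) (J : ℕ) (K : ℕ → ℕ) (k : ℝ) (hb : ∀ j ≤ J, b j ≤ b (j + 1)) {n : ℕ}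
    (hn : n ∈ Nat.smoothNumbers (b (J + 1))) (h0 : Ob 0 (b 0) n = 0)
    (hK : ∀ j ≤ J, Ob (b j) (b (j + 1)) n ≤ K j) : fQ b J (QE k K) n = mf (ek k) n := by
  have h1 : fQ b J (QE k K) n = mf (ek 1) n * ∏ j ∈ range (J + 1), QE k K j (Ob (b j) (b (j + 1)) n) := by
    show (if n ∈ Nat.smoothNumbers (b (J + 1)) ∧ Ob 0 (b 0) n = 0 then _ else _) = _
    rw [if_pos ⟨hn, h0⟩]
  rw [h1]
  have h2 : ∏ j ∈ range (J + 1), QE k K j (Ob (b j) (b (j + 1)) n) = k ^ (Ob 0 (b (J + 1)) n) := by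
    rw [sum_Ob b J hb n, h0, zero_add, ← prod_pow_eq_pow_sum]
    apply prod_congr rfl
    intro j hj
    unfold QE
    rw [if_pos (hK j (by have := mem_range.mp hj; omega))]
  rw [h2, pow_Ob, ← mf_mul_fun]
  apply mf_congr
  intro p hp
  rw [Nat.mem_primeFactors] at hp
  have h3 := (sm_iff.mp hn).2 p hp.1 hp.2.1
  rw [if_pos ⟨Nat.zero_le _, h3⟩]
  unfold ek
  ring

lemma pointwise (b : ℕ → ℕ) (J : ℕ) (K : ℕ → ℕ) {k D : ℝ} (hD : 0 ≤ D) (hb : ∀ j ≤ J, b j ≤ b (j + 1)) {n : ℕ}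
    (hn : n ∈ Nat.smoothNumbers (b (J + 1))) :
    mf (ph (b 0) k D) n ≤ fQ b J (QE k K) n ^ 2 * (n:ℝ) ^ (-D) +
      ∑ j ∈ range (J + 1), rr⁻¹ ^ K j * mf (ps (b 0) (b j) (b (j + 1)) k) n := by
  have hn0 : n ≠ 0 := (sm_iff.mp hn).1
  have hn1 : (1:ℝ) ≤ n := by exact_mod_cast Nat.one_le_iff_ne_zero.mpr hn0
  have hrr := rr_pos
  have hs : ∀ j, 0 ≤ rr⁻¹ ^ K j * mf (ps (b 0) (b j) (b (j + 1)) k) n := fun j =>
    mul_nonneg (by positivity) (mf_nonneg (ps_nonneg _ _ _ _) n)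
  have hs' : 0 ≤ ∑ j ∈ range (J + 1), rr⁻¹ ^ K j * mf (ps (b 0) (b j) (b (j + 1)) k) n :=
    sum_nonneg (fun j _ => hs j)
  have hf0 : 0 ≤ fQ b J (QE k K) n ^ 2 * (n:ℝ) ^ (-D) := by positivity
  by_cases h0 : Ob 0 (b 0) n = 0
  · have hge : ∀ p ∈ n.primeFactors, ¬ p < b 0 := by
      intro p hp hlt
      rw [Nat.mem_primeFactors] at hp
      have := Ob_pos hp.1 hp.2.1 hn0 (show 0 ≤ p ∧ p < b 0 from ⟨Nat.zero_le _, hlt⟩)
      omega
    have h1 : mf (ph (b 0) k D) n = mf (ek k) n ^ 2 * (n:ℝ) ^ (-D) := by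
      rw [rpow_mf hn0, ← mf_pow_fun, ← mf_mul_fun]
      apply mf_congr
      intro p hp
      unfold ph
      rw [if_neg (hge p hp)]
    by_cases hK : ∀ j ≤ J, Ob (b j) (b (j + 1)) n ≤ K j
    · rw [fQ_good b J K k hb hn h0 hK, h1]
      linarith
    · push Not at hK
      obtain ⟨j, hj, hlt⟩ := hK
      have h2 : mf (ek k) n ^ 2 * (n:ℝ) ^ (-D) ≤ mf (ek k) n ^ 2 := by
        apply mul_le_of_le_one_right (sq_nonneg _)
        exact Real.rpow_le_one_of_one_le_of_nonpos hn1 (by linarith)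
      have h3 : mf (ps (b 0) (b j) (b (j + 1)) k) n = mf (ek k) n ^ 2 * rr ^ (Ob (b j) (b (j + 1)) n) := by
        rw [pow_Ob, ← mf_pow_fun, ← mf_mul_fun]
        apply mf_congr
        intro p hp
        unfold ps
        rw [if_neg (hge p hp)]
      have h4 : mf (ek k) n ^ 2 ≤ rr⁻¹ ^ K j * mf (ps (b 0) (b j) (b (j + 1)) k) n := by
        rw [h3]
        have h5 : 1 ≤ rr⁻¹ ^ K j * rr ^ (Ob (b j) (b (j + 1)) n) := by
          rw [inv_pow, inv_mul_eq_div, le_div_iff₀ (by positivity), one_mul]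
          exact pow_le_pow_right₀ one_le_rr hlt.le
        calc mf (ek k) n ^ 2 = mf (ek k) n ^ 2 * 1 := by ring
          _ ≤ mf (ek k) n ^ 2 * (rr⁻¹ ^ K j * rr ^ (Ob (b j) (b (j + 1)) n)) :=
              mul_le_mul_of_nonneg_left h5 (sq_nonneg _)
          _ = _ := by ring
      have h6 : rr⁻¹ ^ K j * mf (ps (b 0) (b j) (b (j + 1)) k) n ≤
          ∑ j ∈ range (J + 1), rr⁻¹ ^ K j * mf (ps (b 0) (b j) (b (j + 1)) k) n :=
        single_le_sum (f := fun j => rr⁻¹ ^ K j * mf (ps (b 0) (b j) (b (j + 1)) k) n)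
          (fun j _ => hs j) (mem_range.mpr (by omega))
      rw [h1]
      linarith
  · have h1 : mf (ph (b 0) k D) n = 0 := by
      have h2 : ∃ p ∈ n.primeFactors, p < b 0 := by
        by_contra hc
        push Not at hc
        apply h0
        apply Ob_eq_zero
        intro p hp hpn ⟨_, hlt⟩
        have := hc p (Nat.mem_primeFactors.mpr ⟨hp, hpn, hn0⟩)
        omega
      obtain ⟨p, hp, hlt⟩ := h2
      unfold mf
      apply prod_eq_zero hp
      unfold ph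
      rw [if_pos hlt, if_neg]
      rw [Nat.mem_primeFactors] at hp
      have := hp.1.factorization_pos_of_dvd hn0 hp.2.1
      omega
    rw [h1]
    linarith

lemma sum_eq_SS (f : ℕ → ℝ) (N Y : ℕ) (h : ∀ n, f n ≠ 0 → n ≤ Y ∧ n ∈ Nat.smoothNumbers N) :
    Sb N f ∧ SS N f = ∑ n ∈ Icc 1 Y, f n / (n:ℝ) := by
  have h1 : ∀ n ∉ Icc 1 Y, sf N f n = 0 := by
    intro n hn
    unfold sf
    by_cases hs : n ∈ Nat.smoothNumbers N
    · rw [Set.indicator_of_mem hs]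
      have : f n = 0 := by
        by_contra hc
        have h2 := (h n hc).1
        have h3 : n ≠ 0 := (sm_iff.mp hs).1
        apply hn
        rw [mem_Icc]
        exact ⟨by omega, h2⟩
      rw [this, zero_div]
    · rw [Set.indicator_of_notMem hs]
  refine ⟨summable_of_ne_finset_zero h1, ?_⟩
  unfold SS
  rw [tsum_eq_sum h1]
  apply sum_congr rfl
  intro n _
  unfold sf
  by_cases hs : n ∈ Nat.smoothNumbers N
  · rw [Set.indicator_of_mem hs]
  · rw [Set.indicator_of_notMem hs]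
    have : f n = 0 := by
      by_contra hc
      exact hs (h n hc).2
    rw [this, zero_div]

lemma shift_Dp (f : ArithmeticFunction ℝ) (Y : ℕ) (t Δ : ℝ) :
    Dr f Y (cl t + (Δ : ℂ)) = Dp (fun n => ((f n : ℝ) : ℂ) * (n:ℂ) ^ (-(Δ : ℂ))) Y (cl t) := by
  unfold Dr Dp
  apply sum_congr rfl
  intro n hn
  have hn1 : n ≠ 0 := by have := (mem_Icc.mp hn).1; omega
  have hn2 : (n:ℂ) ≠ 0 := by exact_mod_cast hn1
  rw [neg_add, Complex.cpow_add _ _ hn2]
  ring

lemma norm_coef (x : ℝ) {n : ℕ} (hn : 1 ≤ n) (Δ : ℝ) :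
    ‖((x : ℝ) : ℂ) * (n:ℂ) ^ (-(Δ : ℂ))‖ = |x| * (n:ℝ) ^ (-Δ) := by
  rw [norm_mul, Complex.norm_real, Real.norm_eq_abs, Complex.norm_natCast_cpow_of_pos (by omega)]
  simp

theorem t_LA (hMVC : P_MVC) (hRN : P_RN) (hPRM : P_PRM) (hFA : P_FA) : P_LA := by
  refine ⟨1 / 100, by norm_num, fun C5 hC5 e he hee C3 hC3 => ?_⟩
  obtain ⟨C1, hC1, hRN'⟩ := hRN e he hee C3 hC3
  obtain ⟨C2, hC2, hRL⟩ := RL_bd
  refine ⟨C1 + 4 * C5 + 2 * C5 * C2 * C3 ^ 2 + 5, by positivity, ?_⟩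
  set C6 := C1 + 4 * C5 + 2 * C5 * C2 * C3 ^ 2 + 4 with hC6
  have hC6p : 0 < C6 := by positivity
  have ev1 : ∀ᶠ T : ℝ in atTop, 12 * Real.log T ≤ T ^ ((1:ℝ) / 8) := by
    have h := (isLittleO_log_rpow_atTop (show (0:ℝ) < 1 / 8 by norm_num)).bound
      (show (0:ℝ) < 1 / 12 by norm_num)
    filter_upwards [h, eventually_ge_atTop 1] with T h1 h2
    rw [Real.norm_of_nonneg (Real.log_nonneg h2), Real.norm_of_nonneg (by positivity)] at h1
    linarith
  filter_upwards [hRN', ev1, eventually_ge_atTop (Real.exp 8)] with T h1 h2 hT k J K b hS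
  have hTpos : 0 < T := lt_of_lt_of_le (Real.exp_pos 8) hT
  have hT1 : 1 ≤ T := le_trans (by have := Real.add_one_le_exp (8:ℝ); linarith) hT
  have hL8 : 8 ≤ Real.log T := by rw [Real.le_log_iff_exp_le hTpos]; exact hT
  have hLpos : 0 < Real.log T := by linarith
  obtain ⟨_, _, r3, _, _⟩ := h1 k J K b hS
  have hk0 := hS.k0
  have hk1 := hS.k1
  have hK100 : ∀ j ≤ J, (100:ℝ) ≤ K j := by
    intro j hj
    have h4 := hS.big j hj
    have h5 : (100:ℝ) ≤ 1 / e := by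
      rw [le_div_iff₀ he]; linarith
    linarith
  have hb10 : ∀ j ≤ J, 10 ≤ b (j + 1) := by
    intro j
    induction j with
    | zero => intro _; exact hS.b10
    | succ j ih =>
      intro hj
      exact (ih (by omega)).trans (hS.mono (j + 1) hj)
  set ℓ := Real.log (2 / k) with hℓ
  have hℓ2 : 1 / 2 ≤ ℓ := by
    have h4 : Real.log 2 ≤ Real.log (2 / k) := by
      apply Real.log_le_log (by norm_num)
      rw [le_div_iff₀ hk0]; linarith
    have := Real.log_two_gt_d9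
    linarith
  have hℓ0 : 0 < ℓ := by linarith
  set N := b (J + 1) with hN
  set W := WW k J b with hW
  have hW1 : 1 ≤ W := by
    rw [hW]; unfold WW
    apply Real.one_le_exp
    have := R1_nonneg (b (J + 1))
    positivity
  have hWe : W = Real.exp (k ^ 2 * R1 N) := rfl
  set Δ := dl C5 T k (K J) with hΔ
  have hΔe : Δ = C5 * (K J : ℝ) ^ 2 * ℓ / Real.log T := rfl
  have hΔ0 : 0 ≤ Δ := by rw [hΔe]; positivity
  set f := fQ b J (QE k K) with hf
  set Y := y2 T with hYd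
  have hYle : (Y : ℝ) ≤ T ^ ((1:ℝ) / 20) := by
    rw [hYd]; unfold y2
    exact Nat.floor_le (by positivity)
  -- support
  have hPY : 4 ^ b 0 * ∏ j ∈ range (J + 1), b (j + 1) ^ K j ≤ Y := by
    have q1 : 4 ^ b 0 * ∏ j ∈ range (J + 1), b (j + 1) ^ K j ≤
        4 ^ b 0 * ∏ j ∈ range (J + 1), b (j + 1) ^ (2 * K j) := by
      apply Nat.mul_le_mul_left
      apply prod_le_prod'
      intro j hj
      have := hb10 j (by have := mem_range.mp hj; omega)
      exact Nat.pow_le_pow_right (by omega) (by omega)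
    have q2 : ((4 ^ b 0 * ∏ j ∈ range (J + 1), b (j + 1) ^ K j : ℕ) : ℝ) ≤ T ^ e :=
      le_trans (by exact_mod_cast q1) hS.len
    have q3 : T ^ e ≤ T ^ ((1:ℝ) / 20) := Real.rpow_le_rpow_of_exponent_le hT1 (by linarith)
    rw [hYd]; unfold y2
    exact Nat.le_floor (q2.trans q3)
  have hsupp : ∀ n, f n ≠ 0 → n ≤ Y ∧ n ∈ Nat.smoothNumbers N := by
    intro n hn
    have hq := (hPRM b J (QE k K) K Y (le_trans (by norm_num) hS.b0) hS.mono (by
      intro j hj m hm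
      unfold QE
      rw [if_neg (by omega)]) hPY).2.1 n hn
    refine ⟨hq.1.trans (le_trans ?_ hPY), hq.2⟩
    exact Nat.le_mul_of_pos_left _ (by positivity)
  have hf1 : ∀ n, |f n| ≤ 1 := fun n => (hFA b J K k (by rw [abs_le]; constructor <;> linarith) n).2.2.1
  -- the mean value theorem
  have hmv := hMVC (fun n => ((f n : ℝ) : ℂ) * (n:ℂ) ^ (-(Δ : ℂ))) Y (T + T ^ ((7:ℝ) / 8))
    (2 * T - T ^ ((7:ℝ) / 8))
  have hT78 : T ^ ((7:ℝ) / 8) * T ^ ((1:ℝ) / 8) = T := by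
    rw [← Real.rpow_add hTpos]; norm_num
  have hT18 : 96 ≤ T ^ ((1:ℝ) / 8) := by linarith
  have hT78p : 0 < T ^ ((7:ℝ) / 8) := Real.rpow_pos_of_pos hTpos _
  have hT78l : 96 * T ^ ((7:ℝ) / 8) ≤ T := by nlinarith
  specialize hmv (by linarith)
  simp only [← shift_Dp] at hmv
  have hmv2 := (abs_le.mp hmv).1
  -- error of the mean value theorem
  have herr : 4 * (Y:ℝ) * (∑ n ∈ Icc 1 Y, ‖((f n : ℝ) : ℂ) * (n:ℂ) ^ (-(Δ : ℂ))‖) ^ 2 ≤ 4 * T ^ ((7:ℝ) / 8) := by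
    have q1 : ∑ n ∈ Icc 1 Y, ‖((f n : ℝ) : ℂ) * (n:ℂ) ^ (-(Δ : ℂ))‖ ≤ Y := by
      calc _ ≤ ∑ n ∈ Icc 1 Y, (1:ℝ) := by
            apply sum_le_sum
            intro n hn
            have hn1 := (mem_Icc.mp hn).1
            rw [norm_coef _ hn1]
            have q2 : (n:ℝ) ^ (-Δ) ≤ 1 :=
              Real.rpow_le_one_of_one_le_of_nonpos (by exact_mod_cast hn1) (by linarith)
            calc |f n| * (n:ℝ) ^ (-Δ) ≤ 1 * 1 := mul_le_mul (hf1 n) q2 (by positivity) (by norm_num)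
              _ = 1 := by norm_num
        _ = Y := by simp
    have q3 : (0:ℝ) ≤ ∑ n ∈ Icc 1 Y, ‖((f n : ℝ) : ℂ) * (n:ℂ) ^ (-(Δ : ℂ))‖ :=
      sum_nonneg (fun _ _ => norm_nonneg _)
    have q4 : (Y:ℝ) * Y ^ 2 ≤ T ^ ((7:ℝ) / 8) := by
      calc (Y:ℝ) * Y ^ 2 = (Y:ℝ) ^ 3 := by ring
        _ ≤ (T ^ ((1:ℝ) / 20)) ^ 3 := pow_le_pow_left₀ (Nat.cast_nonneg _) hYle 3
        _ = T ^ ((3:ℝ) / 20) := by
            rw [← Real.rpow_natCast, ← Real.rpow_mul hTpos.le]; norm_num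
        _ ≤ T ^ ((7:ℝ) / 8) := Real.rpow_le_rpow_of_exponent_le hT1 (by norm_num)
    have q5 := pow_le_pow_left₀ q3 q1 2
    have q6 : (Y:ℝ) * (∑ n ∈ Icc 1 Y, ‖((f n : ℝ) : ℂ) * (n:ℂ) ^ (-(Δ : ℂ))‖) ^ 2 ≤ Y * Y ^ 2 :=
      mul_le_mul_of_nonneg_left q5 (Nat.cast_nonneg _)
    linarith
  -- the diagonal
  set S := ∑ n ∈ Icc 1 Y, ‖((f n : ℝ) : ℂ) * (n:ℂ) ^ (-(Δ : ℂ))‖ ^ 2 / (n:ℝ) with hSdef
  have hSS := sum_eq_SS (fun n => f n ^ 2 * (n:ℝ) ^ (-(2 * Δ))) N Y (by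
    intro n hn
    apply hsupp n
    intro h0
    apply hn
    simp only [h0]; ring)
  have hSeq : S = SS N (fun n => f n ^ 2 * (n:ℝ) ^ (-(2 * Δ))) := by
    rw [hSS.2, hSdef]
    apply sum_congr rfl
    intro n hn
    have hn1 := (mem_Icc.mp hn).1
    have hn0 : (0:ℝ) < n := by exact_mod_cast hn1
    rw [norm_coef _ hn1, mul_pow, sq_abs]
    congr 2
    rw [← Real.rpow_natCast, ← Real.rpow_mul hn0.le]
    congr 1
    push_cast; ring
  have hD0 : 0 ≤ 2 * Δ := by linarith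
  have hphb := ph_bound (b 0) N (mono_b b J hS.mono 0 (by omega)) hD0 hk0.le hk1
  have hpsb : ∀ j ∈ range (J + 1), Sb N (mf (ps (b 0) (b j) (b (j + 1)) k)) ∧
      SS N (mf (ps (b 0) (b j) (b (j + 1)) k)) ≤
        Real.exp (k ^ 2 * R1 N + (rr - 1) * k ^ 2 * (R1 (b (j + 1)) - R1 (b j))) := by
    intro j hj
    have hj' : j ≤ J := by have := mem_range.mp hj; omega
    exact ps_bound _ _ _ _ _ (hS.mono j hj') (mono_b b J hS.mono (j + 1) (by omega))
  have hsbj : ∀ j ∈ range (J + 1), Sb N (fun n => rr⁻¹ ^ K j * mf (ps (b 0) (b j) (b (j + 1)) k) n) :=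
    fun j hj => (hpsb j hj).1.const_mul _
  have hsum : Sb N (fun n => ∑ j ∈ range (J + 1), rr⁻¹ ^ K j * mf (ps (b 0) (b j) (b (j + 1)) k) n) := by
    unfold Sb
    have : sf N (fun n => ∑ j ∈ range (J + 1), rr⁻¹ ^ K j * mf (ps (b 0) (b j) (b (j + 1)) k) n) =
        fun n => ∑ j ∈ range (J + 1), sf N (fun n => rr⁻¹ ^ K j * mf (ps (b 0) (b j) (b (j + 1)) k) n) n := by
      funext n
      unfold sf
      by_cases hn : n ∈ Nat.smoothNumbers N
      · simp only [Set.indicator_of_mem hn]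
        rw [sum_div]
      · simp only [Set.indicator_of_notMem hn]
        simp
    rw [this]
    exact summable_sum hsbj
  have hcmp : SS N (mf (ph (b 0) k (2 * Δ))) ≤ SS N (fun n => f n ^ 2 * (n:ℝ) ^ (-(2 * Δ))) +
      ∑ j ∈ range (J + 1), rr⁻¹ ^ K j * SS N (mf (ps (b 0) (b j) (b (j + 1)) k)) := by
    have q1 : ∑ j ∈ range (J + 1), rr⁻¹ ^ K j * SS N (mf (ps (b 0) (b j) (b (j + 1)) k)) =
        SS N (fun n => ∑ j ∈ range (J + 1), rr⁻¹ ^ K j * mf (ps (b 0) (b j) (b (j + 1)) k) n) := by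
      rw [Pool.Agent.Q195.KZ.finset_SS _ _ hsbj]
      apply sum_congr rfl
      intro j _
      rw [SS_const_mul]
    rw [q1, ← SS_add hSS.1 hsum]
    apply SS_le hphb.1 (hSS.1.add hsum)
    intro n hn
    exact pointwise b J K hD0 hS.mono hn
  have hrrlog : 1 / 6 ≤ Real.log rr := by
    have := Real.one_sub_inv_le_log_of_pos rr_pos
    unfold rr at this ⊢
    norm_num at this ⊢
    linarith
  have hS2 : ∑ j ∈ range (J + 1), rr⁻¹ ^ K j * SS N (mf (ps (b 0) (b j) (b (j + 1)) k)) ≤ W * k ^ 2 := by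
    calc _ ≤ ∑ j ∈ range (J + 1), W * Real.exp (-((K j : ℝ) / 100)) := by
          apply sum_le_sum
          intro j hj
          have hj' : j ≤ J := by have := mem_range.mp hj; omega
          have q1 := (hpsb j hj).2
          have q2 : rr⁻¹ ^ K j = Real.exp (-(K j * Real.log rr)) := by
            rw [Real.exp_neg, mul_comm, Real.exp_mul, Real.exp_log rr_pos, Real.rpow_natCast, inv_pow]
          calc rr⁻¹ ^ K j * SS N (mf (ps (b 0) (b j) (b (j + 1)) k))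
              ≤ Real.exp (-(K j * Real.log rr)) *
                Real.exp (k ^ 2 * R1 N + (rr - 1) * k ^ 2 * (R1 (b (j + 1)) - R1 (b j))) := by
                rw [q2]
                exact mul_le_mul_of_nonneg_left q1 (Real.exp_pos _).le
            _ = W * Real.exp (-(K j * Real.log rr) + (rr - 1) * k ^ 2 * (R1 (b (j + 1)) - R1 (b j))) := by
                rw [hWe, ← Real.exp_add, ← Real.exp_add]
                congr 1; ring
            _ ≤ W * Real.exp (-((K j : ℝ) / 100)) := by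
                apply mul_le_mul_of_nonneg_left _ (by linarith)
                apply Real.exp_le_exp.mpr
                have q3 := hS.var j hj'
                have q4 : R1 (b (j + 1)) - R1 (b j) ≤ (K j : ℝ) / 100 := by
                  have : e * K j ≤ 1 / 100 * K j :=
                    mul_le_mul_of_nonneg_right hee (Nat.cast_nonneg _)
                  linarith
                have q5 : 0 ≤ R1 (b (j + 1)) - R1 (b j) := by
                  have := R1_mono (hS.mono j hj')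
                  linarith
                have q6 : (rr - 1) * k ^ 2 * (R1 (b (j + 1)) - R1 (b j)) ≤ 1 / 5 * ((K j : ℝ) / 100) := by
                  have q7 : (rr - 1) * k ^ 2 ≤ 1 / 5 := by
                    unfold rr
                    have : k ^ 2 ≤ 1 := pow_le_one₀ hk0.le hk1
                    linarith
                  have q8 : 0 ≤ (rr - 1) * k ^ 2 := mul_nonneg (by unfold rr; norm_num) (sq_nonneg k)
                  exact mul_le_mul q7 q4 q5 (by norm_num)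
                have q9 : (K j : ℝ) * (1 / 6) ≤ K j * Real.log rr :=
                  mul_le_mul_of_nonneg_left hrrlog (Nat.cast_nonneg _)
                linarith [hK100 j hj']
      _ = W * ∑ j ∈ range (J + 1), Real.exp (-((K j : ℝ) / 100)) := by rw [mul_sum]
      _ ≤ W * k ^ 2 := mul_le_mul_of_nonneg_left hS.err (by linarith)
  -- bounds of the exponent
  have hR1b0 : R1 (b 0) ≤ C1 * ℓ := by
    have := Real.add_one_le_exp (R1 (b 0))
    linarith
  have hKJ100 := hK100 J le_rfl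
  have hRLN : (2 * Δ) * RL N ≤ (4 * C5 + 2 * C5 * C2 * C3 ^ 2) * ℓ := by
    have hN10 : 10 ≤ N := hb10 J le_rfl
    have q1 : RL N ≤ Real.log ((N - 1 : ℕ) : ℝ) + C2 := by
      have := hRL (N - 1) (by omega)
      rwa [show N - 1 + 1 = N by omega] at this
    have q2 : Real.log ((N - 1 : ℕ) : ℝ) ≤ Real.log N := by
      apply Real.log_le_log
      · exact_mod_cast (by omega : 0 < N - 1)
      · exact_mod_cast Nat.sub_le N 1
    have q3 : Real.log N ≤ 2 * Real.log T / (K J : ℝ) ^ 2 := hS.lb J le_rfl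
    have q4 : RL N ≤ 2 * Real.log T / (K J : ℝ) ^ 2 + C2 := by linarith
    have q5 : (2 * Δ) * RL N ≤ (2 * Δ) * (2 * Real.log T / (K J : ℝ) ^ 2 + C2) :=
      mul_le_mul_of_nonneg_left q4 hD0
    have hKp : (0:ℝ) < K J := by linarith
    have q6 : (2 * Δ) * (2 * Real.log T / (K J : ℝ) ^ 2 + C2) =
        4 * C5 * ℓ + 2 * C5 * C2 * ℓ * ((K J : ℝ) ^ 2 / Real.log T) := by
      rw [hΔe]; field_simp; ring
    have q7 : (K J : ℝ) ^ 2 / Real.log T ≤ C3 ^ 2 := by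
      rw [div_le_iff₀ hLpos]
      have q8 : (K J : ℝ) ^ 2 ≤ (C3 / k) ^ 2 := pow_le_pow_left₀ hKp.le hS.KJ 2
      have q9 : (C3 / k) ^ 2 ≤ C3 ^ 2 * Real.log T := by
        rw [div_pow, div_le_iff₀ (by positivity)]
        have q10 : 1 ≤ Real.log T * k ^ 2 := by
          have q11 : Real.log T ^ (-(1 / 5) : ℝ) ≤ k := hS.kT
          have q12 : (Real.log T ^ (-(1 / 5) : ℝ)) ^ 2 ≤ k ^ 2 :=
            pow_le_pow_left₀ (by positivity) q11 2
          have q13 : Real.log T * (Real.log T ^ (-(1 / 5) : ℝ)) ^ 2 = Real.log T ^ ((3:ℝ) / 5) := by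
            rw [← Real.rpow_natCast, ← Real.rpow_mul hLpos.le]
            nth_rw 1 [← Real.rpow_one (Real.log T)]
            rw [← Real.rpow_add hLpos]; norm_num
          have q14 : 1 ≤ Real.log T ^ ((3:ℝ) / 5) := Real.one_le_rpow (by linarith) (by norm_num)
          calc (1:ℝ) ≤ Real.log T * (Real.log T ^ (-(1 / 5) : ℝ)) ^ 2 := by rw [q13]; exact q14
            _ ≤ _ := mul_le_mul_of_nonneg_left q12 hLpos.le
        calc C3 ^ 2 = C3 ^ 2 * 1 := by ring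
          _ ≤ C3 ^ 2 * (Real.log T * k ^ 2) := mul_le_mul_of_nonneg_left q10 (by positivity)
          _ = _ := by ring
      linarith
    have q15 : 2 * C5 * C2 * ℓ * ((K J : ℝ) ^ 2 / Real.log T) ≤ 2 * C5 * C2 * ℓ * C3 ^ 2 :=
      mul_le_mul_of_nonneg_left q7 (by positivity)
    calc (2 * Δ) * RL N ≤ 4 * C5 * ℓ + 2 * C5 * C2 * ℓ * ((K J : ℝ) ^ 2 / Real.log T) := by
          rw [← q6]; exact q5
      _ ≤ _ := by linarith
  have hk2 : k ^ 2 ≤ k := by nlinarith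
  have hk4 : k ^ 4 ≤ k := by
    have : k ^ 4 ≤ k ^ 1 := pow_le_pow_of_le_one hk0.le hk1 (by norm_num)
    simpa using this
  have hSlow : W * (1 - C6 * k * ℓ) ≤ S := by
    have q1 : W * (1 - (k ^ 2 * R1 (b 0) + 2 * Δ * k ^ 2 * RL N + k ^ 4)) ≤
        SS N (mf (ph (b 0) k (2 * Δ))) := by
      refine le_trans ?_ hphb.2
      rw [show k ^ 2 * R1 N - k ^ 2 * R1 (b 0) - 2 * Δ * k ^ 2 * RL N - k ^ 4 =
        k ^ 2 * R1 N + (-(k ^ 2 * R1 (b 0) + 2 * Δ * k ^ 2 * RL N + k ^ 4)) by ring, Real.exp_add, ← hWe]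
      apply mul_le_mul_of_nonneg_left _ (by linarith)
      have := Real.add_one_le_exp (-(k ^ 2 * R1 (b 0) + 2 * Δ * k ^ 2 * RL N + k ^ 4))
      linarith
    have q2 : W * (1 - (k ^ 2 * R1 (b 0) + 2 * Δ * k ^ 2 * RL N + k ^ 4)) - W * k ^ 2 ≤ S := by
      rw [hSeq]; linarith
    refine le_trans ?_ q2
    rw [← mul_sub]
    apply mul_le_mul_of_nonneg_left _ (by linarith)
    have q3 : k ^ 2 * R1 (b 0) ≤ C1 * (k * ℓ) := by
      calc k ^ 2 * R1 (b 0) ≤ k ^ 2 * (C1 * ℓ) := mul_le_mul_of_nonneg_left hR1b0 (sq_nonneg _)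
        _ ≤ k * (C1 * ℓ) := mul_le_mul_of_nonneg_right hk2 (by positivity)
        _ = _ := by ring
    have q4 : 2 * Δ * k ^ 2 * RL N ≤ (4 * C5 + 2 * C5 * C2 * C3 ^ 2) * (k * ℓ) := by
      calc 2 * Δ * k ^ 2 * RL N = k ^ 2 * ((2 * Δ) * RL N) := by ring
        _ ≤ k ^ 2 * ((4 * C5 + 2 * C5 * C2 * C3 ^ 2) * ℓ) := mul_le_mul_of_nonneg_left hRLN (sq_nonneg _)
        _ ≤ k * ((4 * C5 + 2 * C5 * C2 * C3 ^ 2) * ℓ) := mul_le_mul_of_nonneg_right hk2 (by positivity)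
        _ = _ := by ring
    have q5 : k ≤ 2 * (k * ℓ) := by nlinarith
    have q6 : C6 * k * ℓ = C1 * (k * ℓ) + (4 * C5 + 2 * C5 * C2 * C3 ^ 2) * (k * ℓ) + 4 * (k * ℓ) := by
      rw [hC6]; ring
    rw [q6]
    linarith
  -- conclusion
  have hlen : (2 * T - T ^ ((7:ℝ) / 8)) - (T + T ^ ((7:ℝ) / 8)) = T - 2 * T ^ ((7:ℝ) / 8) := by ring
  rw [hlen] at hmv2
  have hlenpos : 0 ≤ T - 2 * T ^ ((7:ℝ) / 8) := by linarith
  have f1 : (T - 2 * T ^ ((7:ℝ) / 8)) * (W * (1 - C6 * k * ℓ)) ≤ (T - 2 * T ^ ((7:ℝ) / 8)) * S :=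
    mul_le_mul_of_nonneg_left hSlow hlenpos
  have hkl : 0 ≤ k * ℓ := by positivity
  have f2 : T * W * (1 - C6 * k * ℓ) - 2 * T ^ ((7:ℝ) / 8) * W ≤
      (T - 2 * T ^ ((7:ℝ) / 8)) * (W * (1 - C6 * k * ℓ)) := by
    have : 0 ≤ 2 * T ^ ((7:ℝ) / 8) * W * (C6 * (k * ℓ)) := by positivity
    nlinarith
  have f3 : 6 * T ^ ((7:ℝ) / 8) * W ≤ k * ℓ * (T * W) := by
    have g1 : 6 * T ^ ((7:ℝ) / 8) ≤ k * ℓ * T := by
      have g2 : Real.log T * k ≥ 1 := by
        have q11 : Real.log T ^ (-(1 / 5) : ℝ) ≤ k := hS.kT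
        have q13 : Real.log T * Real.log T ^ (-(1 / 5) : ℝ) = Real.log T ^ ((4:ℝ) / 5) := by
          nth_rw 1 [← Real.rpow_one (Real.log T)]
          rw [← Real.rpow_add hLpos]; norm_num
        have q14 : 1 ≤ Real.log T ^ ((4:ℝ) / 5) := Real.one_le_rpow (by linarith) (by norm_num)
        calc Real.log T * k ≥ Real.log T * Real.log T ^ (-(1 / 5) : ℝ) :=
              mul_le_mul_of_nonneg_left q11 hLpos.le
          _ ≥ 1 := by rw [q13]; exact q14
      have g3 : 12 ≤ k * T ^ ((1:ℝ) / 8) := by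
        calc (12:ℝ) = 12 * 1 := by ring
          _ ≤ 12 * (Real.log T * k) := by linarith
          _ = k * (12 * Real.log T) := by ring
          _ ≤ _ := mul_le_mul_of_nonneg_left h2 hk0.le
      have g4 : 6 ≤ k * ℓ * T ^ ((1:ℝ) / 8) := by
        calc (6:ℝ) = 1 / 2 * 12 := by norm_num
          _ ≤ ℓ * (k * T ^ ((1:ℝ) / 8)) := mul_le_mul hℓ2 g3 (by norm_num) (by linarith)
          _ = _ := by ring
      calc 6 * T ^ ((7:ℝ) / 8) ≤ (k * ℓ * T ^ ((1:ℝ) / 8)) * T ^ ((7:ℝ) / 8) :=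
            mul_le_mul_of_nonneg_right g4 hT78p.le
        _ = k * ℓ * (T ^ ((7:ℝ) / 8) * T ^ ((1:ℝ) / 8)) := by ring
        _ = _ := by rw [hT78]
    calc 6 * T ^ ((7:ℝ) / 8) * W ≤ (k * ℓ * T) * W := mul_le_mul_of_nonneg_right g1 (by linarith)
      _ = _ := by ring
  have f4 : 4 * T ^ ((7:ℝ) / 8) ≤ 4 * T ^ ((7:ℝ) / 8) * W := le_mul_of_one_le_right (by positivity) hW1
  have f5 : (1 - (C6 + 1) * k * ℓ) * (T * W) = T * W * (1 - C6 * k * ℓ) - k * ℓ * (T * W) := by ring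
  have f6 : C1 + 4 * C5 + 2 * C5 * C2 * C3 ^ 2 + 5 = C6 + 1 := by rw [hC6]; ring
  rw [f6, f5]
  linarith

end Pool.Agent.Q195.KZ.LA
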